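import Mathlib

/-! # Hypercubes: distances and signs -/

set_option autoImplicit false

open Finset

namespace Pool.Agent.Run7.h20.HCB

/-- The hypercube graph. -/
def Q (d : ℕ) : SimpleGraph (Fin d → Bool) where
  Adj x y := hammingDist x y = 1
  symm := ⟨fun x y h => by
    rw [hammingDist_comm]
    exact h⟩
  loopless := ⟨fun x h => by simp at h⟩

variable {d : ℕ}

/-- The sign of a bit. -/
def sg (b : Bool) : ℤ := if b then 1 else -1

lemma sg_true : sg true = 1 := rfl
lemma sg_false : sg false = -1 := rfl

lemma sg_cases (b : Bool) : sg b = 1 ∨ sg b = -1 := by cases b <;> simp [sg]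

lemma sg_not (b : Bool) : sg (!b) = - sg b := by cases b <;> simp [sg]

lemma sg_inj {a b : Bool} (h : sg a = sg b) : a = b := by
  cases a <;> cases b <;> simp_all [sg]

lemma two_hd (u s : Fin d → Bool) :
    2 * (hammingDist u s : ℤ) = d - ∑ i, sg (u i) * sg (s i) := by
  have h1 : ∀ i, sg (u i) * sg (s i) = 1 - 2 * (if u i ≠ s i then 1 else 0) := by
    intro i
    cases u i <;> cases s i <;> simp [sg]
  simp only [h1]
  rw [Finset.sum_sub_distrib, ← Finset.mul_sum]
  have h2 : (∑ i, (if u i ≠ s i then (1 : ℤ) else 0)) = hammingDist u s := by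
    rw [hammingDist, Finset.card_eq_sum_ones, Finset.sum_filter]
    push_cast
    rfl
  rw [h2]
  simp

lemma exists_walk (n : ℕ) : ∀ u v : Fin d → Bool, hammingDist u v = n →
    ∃ w : (Q d).Walk u v, w.length = n := by
  induction n with
  | zero =>
    intro u v h
    have : u = v := hammingDist_eq_zero.1 h
    subst this
    exact ⟨.nil, rfl⟩
  | succ n ih =>
    intro u v h
    have hne : u ≠ v := by
      intro h'
      subst h'
      simp at h
    obtain ⟨i, hi⟩ := Function.ne_iff.1 hne
    set u' := Function.update u i (v i) with hu'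
    have h1 : hammingDist u u' = 1 := by
      unfold hammingDist
      rw [Finset.card_eq_one]
      refine ⟨i, ?_⟩
      ext j
      simp only [Finset.mem_filter, Finset.mem_univ, true_and, Finset.mem_singleton, hu']
      by_cases hj : j = i
      · subst hj; simp [hi]
      · simp [hj]
    have h2 : hammingDist u' v = n := by
      unfold hammingDist at h ⊢
      have : (univ.filter fun j => u' j ≠ v j) = (univ.filter fun j => u j ≠ v j).erase i := by
        ext j
        simp only [Finset.mem_filter, Finset.mem_univ, true_and, Finset.mem_erase, hu']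
        by_cases hj : j = i
        · subst hj; simp
        · simp [hj]
      rw [this, Finset.card_erase_of_mem (by simp [hi]), h]
      rfl
    obtain ⟨w, hw⟩ := ih u' v h2
    have h1' : (Q d).Adj u u' := h1
    exact ⟨.cons h1' w, by rw [SimpleGraph.Walk.length_cons, hw]⟩

lemma hd_le_length {u v : Fin d → Bool} (w : (Q d).Walk u v) : hammingDist u v ≤ w.length := by
  induction w with
  | nil => simp
  | @cons u v x h w ih =>
    rw [SimpleGraph.Walk.length_cons]
    have h1 : hammingDist u v = 1 := h
    have := hammingDist_triangle u v x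
    omega

lemma dist_eq (u v : Fin d → Bool) : (Q d).dist u v = hammingDist u v := by
  obtain ⟨w, hw⟩ := exists_walk _ u v rfl
  apply le_antisymm
  · rw [← hw]
    exact SimpleGraph.dist_le w
  · have hr : (Q d).Reachable u v := ⟨w⟩
    obtain ⟨p, hp⟩ := hr.exists_walk_length_eq_dist
    rw [← hp]
    exact hd_le_length p

/-- the common part of the ends of an edge in direction `a` -/
def E (a : Fin d) (u s : Fin d → Bool) : ℤ := ∑ i ∈ univ.erase a, sg (u i) * sg (s i)

lemma sum_eq (a : Fin d) (u s : Fin d → Bool) :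
    ∑ i, sg (u i) * sg (s i) = sg (u a) * sg (s a) + E a u s := by
  unfold E
  exact (Finset.add_sum_erase univ (fun i => sg (u i) * sg (s i)) (Finset.mem_univ a)).symm

lemma E_congr {a : Fin d} {u v : Fin d → Bool} (h : ∀ i, i ≠ a → u i = v i) (s : Fin d → Bool) :
    E a u s = E a v s := by
  unfold E
  refine Finset.sum_congr rfl fun i hi => ?_
  rw [h i (Finset.ne_of_mem_erase hi)]

lemma adj_iff {u v : Fin d → Bool} : (Q d).Adj u v ↔ ∃ a, v a = !u a ∧ ∀ i, i ≠ a → v i = u i := by
  constructor
  · intro h
    have h1 : hammingDist u v = 1 := h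
    unfold hammingDist at h1
    rw [Finset.card_eq_one] at h1
    obtain ⟨a, ha⟩ := h1
    refine ⟨a, ?_, fun i hi => ?_⟩
    · have : a ∈ (univ.filter fun i => u i ≠ v i) := by rw [ha]; simp
      simp only [Finset.mem_filter, Finset.mem_univ, true_and] at this
      cases hu : u a <;> cases hv : v a <;> simp_all
    · by_contra hne
      have : i ∈ (univ.filter fun i => u i ≠ v i) := by
        simp only [Finset.mem_filter, Finset.mem_univ, true_and]
        exact fun h => hne h.symm
      rw [ha, Finset.mem_singleton] at this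
      exact hi this
  · rintro ⟨a, h1, h2⟩
    show hammingDist u v = 1
    unfold hammingDist
    rw [Finset.card_eq_one]
    refine ⟨a, ?_⟩
    ext i
    simp only [Finset.mem_filter, Finset.mem_univ, true_and, Finset.mem_singleton]
    by_cases hi : i = a
    · subst hi; simp [h1]
    · simp [hi, h2 i hi]

/-- distance from an edge -/
lemma two_min {u v : Fin d → Bool} {a : Fin d} (h1 : v a = !u a) (h2 : ∀ i, i ≠ a → v i = u i)
    (s : Fin d → Bool) :
    2 * ((min (hammingDist u s) (hammingDist v s) : ℕ) : ℤ) = d - 1 - E a u s := by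
  have e1 := two_hd u s
  have e2 := two_hd v s
  rw [sum_eq a] at e1 e2
  rw [E_congr h2, h1, sg_not] at e2
  rcases sg_cases (u a) with h3 | h3 <;> rcases sg_cases (s a) with h4 | h4 <;>
    rw [h3, h4] at e1 e2 <;> rcases le_total (hammingDist u s) (hammingDist v s) with h | h <;>
    simp only [h, min_eq_left, min_eq_right] <;> push_cast <;> omega

/-- vertex resolving sets -/
def Res (S : Finset (Fin d → Bool)) : Prop :=
  ∀ u v : Fin d → Bool, u ≠ v → ∃ s ∈ S, (Q d).dist u s ≠ (Q d).dist v s

/-- edge resolving sets -/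
def ERes (S : Finset (Fin d → Bool)) : Prop :=
  ∀ u v x y : Fin d → Bool, (Q d).Adj u v → (Q d).Adj x y → s(u, v) ≠ s(x, y) →
    ∃ s ∈ S, min ((Q d).dist u s) ((Q d).dist v s) ≠ min ((Q d).dist x s) ((Q d).dist y s)

lemma hd_eq_iff (u v s : Fin d → Bool) : hammingDist u s = hammingDist v s ↔
    ∑ i, sg (u i) * sg (s i) = ∑ i, sg (v i) * sg (s i) := by
  have e1 := two_hd u s
  have e2 := two_hd v s
  constructor
  · intro h
    rw [h] at e1
    linarith
  · intro h
    rw [h] at e1
    have : (2 : ℤ) * (hammingDist u s : ℤ) = 2 * (hammingDist v s : ℤ) := by linarith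
    exact_mod_cast (mul_left_cancel₀ (two_ne_zero) this)

lemma not_res {S : Finset (Fin d → Bool)} (h : Res S) {u v : Fin d → Bool}
    (huv : ∀ s ∈ S, ∑ i, sg (u i) * sg (s i) = ∑ i, sg (v i) * sg (s i)) : u = v := by
  by_contra hne
  obtain ⟨s, hs, h1⟩ := h u v hne
  rw [dist_eq, dist_eq] at h1
  exact h1 ((hd_eq_iff u v s).2 (huv s hs))

lemma not_eres {S : Finset (Fin d → Bool)} (h : ERes S) {u x : Fin d → Bool} {a b : Fin d}
    (hs : ∀ s ∈ S, E a u s = E b x s) :
    s(u, Function.update u a (!u a)) = s(x, Function.update x b (!x b)) := by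
  by_contra hne
  have hu1 : Function.update u a (!u a) a = !u a := by simp
  have hu2 : ∀ i, i ≠ a → Function.update u a (!u a) i = u i := fun i hi => by simp [hi]
  have hx1 : Function.update x b (!x b) b = !x b := by simp
  have hx2 : ∀ i, i ≠ b → Function.update x b (!x b) i = x i := fun i hi => by simp [hi]
  obtain ⟨s, hsS, h1⟩ := h _ _ _ _ (adj_iff.2 ⟨a, hu1, hu2⟩) (adj_iff.2 ⟨b, hx1, hx2⟩) hne
  simp only [dist_eq] at h1
  have e1 := two_min hu1 hu2 s
  have e2 := two_min hx1 hx2 s
  rw [hs s hsS] at e1
  apply h1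
  have : (2 : ℤ) * ((min (hammingDist u s) (hammingDist (Function.update u a (!u a)) s) : ℕ) : ℤ) =
      2 * ((min (hammingDist x s) (hammingDist (Function.update x b (!x b)) s) : ℕ) : ℤ) := by
    linarith
  exact_mod_cast (mul_left_cancel₀ (two_ne_zero) this)

end Pool.Agent.Run7.h20.HCB
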