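import Pool.Agent.Run7.h20.HCB.Ineq

/-! # Hypercubes: metric dimension and edge metric dimension -/

set_option autoImplicit false

open Finset

namespace Pool.Agent.Run7.h20.HCB

variable {d : ℕ}

/-- metric dimension of the hypercube -/
noncomputable def dm (d : ℕ) : ℕ := sInf {n : ℕ | ∃ S : Finset (Fin d → Bool), S.card = n ∧ Res S}

/-- edge metric dimension of the hypercube -/
noncomputable def edm (d : ℕ) : ℕ :=
  sInf {n : ℕ | ∃ S : Finset (Fin d → Bool), S.Nonempty ∧ S.card = n ∧ ERes S}

lemma res_univ : Res (univ : Finset (Fin d → Bool)) := by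
  intro u v huv
  refine ⟨u, Finset.mem_univ _, ?_⟩
  rw [dist_eq, dist_eq, hammingDist_self]
  intro h
  exact huv (hammingDist_eq_zero.1 h.symm).symm

lemma dm_le {S : Finset (Fin d → Bool)} (hS : Res S) : dm d ≤ S.card :=
  Nat.sInf_le ⟨S, rfl, hS⟩

lemma edm_le {S : Finset (Fin d → Bool)} (hne : S.Nonempty) (hS : ERes S) : edm d ≤ S.card :=
  Nat.sInf_le ⟨S, hne, rfl, hS⟩

lemma exists_dm (d : ℕ) : ∃ S : Finset (Fin d → Bool), S.card = dm d ∧ Res S :=
  Nat.sInf_mem (s := {n : ℕ | ∃ S : Finset (Fin d → Bool), S.card = n ∧ Res S})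
    ⟨_, univ, rfl, res_univ⟩

lemma exists_edm (d : ℕ) : ∃ S : Finset (Fin d → Bool), S.Nonempty ∧ S.card = edm d ∧ ERes S :=
  Nat.sInf_mem (s := {n : ℕ | ∃ S : Finset (Fin d → Bool), S.Nonempty ∧ S.card = n ∧ ERes S})
    ⟨_, univ, Finset.univ_nonempty, rfl, eres_of_res res_univ⟩

lemma nonempty_of_res (hd : 1 ≤ d) {S : Finset (Fin d → Bool)} (hS : Res S) : S.Nonempty := by
  obtain ⟨s, hs, _⟩ := hS (fun _ => true) (fun _ => false) (by
    intro h
    have := congrFun h ⟨0, hd⟩
    simp at this)
  exact ⟨s, hs⟩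

/-- `edim(Q_d) ≤ dim(Q_d)` -/
theorem edm_le_dm (hd : 1 ≤ d) : edm d ≤ dm d := by
  obtain ⟨S, h1, h2⟩ := exists_dm d
  rw [← h1]
  exact edm_le (nonempty_of_res hd h2) (eres_of_res h2)

theorem dm_eq_edm (hd : Odd d) : dm d = edm d := by
  refine le_antisymm ?_ (edm_le_dm hd.pos)
  obtain ⟨S, h1, h2, h3⟩ := exists_edm d
  rw [← h2]
  exact dm_le (res_of_eres hd h1 h3)

theorem dm_le_succ (hd : 1 ≤ d) : dm d ≤ edm d + 1 := by
  obtain ⟨S, ⟨s, hs⟩, h2, h3⟩ := exists_edm d
  rw [← h2]
  exact (dm_le (res_insert hd hs h3)).trans (Finset.card_insert_le _ _)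

theorem dm_le_edm_succ (d : ℕ) : dm d ≤ edm (d + 1) := by
  obtain ⟨S, h1, h2, h3⟩ := exists_edm (d + 1)
  rw [← h2]
  exact (dm_le (res_image h3)).trans Finset.card_image_le

theorem dm_mono_succ (d : ℕ) : dm d ≤ dm (d + 1) :=
  (dm_le_edm_succ d).trans (edm_le_dm (by omega))

lemma dm_one_le : dm (0 + 1) ≤ 1 := by
  have h : Res ({fun _ => true} : Finset (Fin (0 + 1) → Bool)) := by
    intro u v huv
    by_contra hcon
    push Not at hcon
    simp only [dist_eq] at hcon
    have h1 := (hd_eq_iff u v _).1 (hcon _ (Finset.mem_singleton_self _))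
    apply huv
    funext i
    have hi : i = 0 := by
      apply Fin.ext
      have := i.2
      simp only [Fin.val_zero]
      omega
    subst hi
    apply sg_inj
    simpa [sg_true] using h1
  simpa using dm_le h

/-- The metric dimension increases by at most one. -/
theorem dm_succ_le (e : ℕ) : dm (e + 1) ≤ dm e + 1 := by
  obtain ⟨S, h1, h2⟩ := exists_dm e
  rcases S.eq_empty_or_nonempty with h | ⟨s₀, hs₀⟩
  · have he : e = 0 := by
      by_contra he
      have h3 := nonempty_of_res (Nat.one_le_iff_ne_zero.2 he) h2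
      rw [h] at h3
      simp at h3
    subst he
    exact dm_one_le.trans (by omega)
  · have hres : Res (insert (Fin.cons false s₀ : Fin (e + 1) → Bool)
        (S.image fun s => (Fin.cons true s : Fin (e + 1) → Bool))) := by
      intro u v huv
      by_contra hcon
      push Not at hcon
      simp only [dist_eq] at hcon
      have h3 : ∀ s ∈ S, sg (u 0) + ∑ i : Fin e, sg (u i.succ) * sg (s i) =
          sg (v 0) + ∑ i : Fin e, sg (v i.succ) * sg (s i) := by
        intro s hs
        have := (hd_eq_iff u v _).1 (hcon _ (Finset.mem_insert_of_mem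
          (Finset.mem_image_of_mem _ hs)))
        simpa [Fin.sum_univ_succ, sg_true] using this
      have h4 : -sg (u 0) + ∑ i : Fin e, sg (u i.succ) * sg (s₀ i) =
          -sg (v 0) + ∑ i : Fin e, sg (v i.succ) * sg (s₀ i) := by
        have := (hd_eq_iff u v _).1 (hcon _ (Finset.mem_insert_self _ _))
        simpa [Fin.sum_univ_succ, sg_false] using this
      have h5 : sg (u 0) = sg (v 0) := by
        have := h3 s₀ hs₀
        linarith
      have h6 : (fun i : Fin e => u i.succ) = fun i : Fin e => v i.succ := by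
        apply not_res h2
        intro s hs
        have := h3 s hs
        rw [h5] at this
        linarith
      apply huv
      funext i
      refine Fin.cases ?_ (fun j => ?_) i
      · exact sg_inj h5
      · exact congrFun h6 j
    have h3 := dm_le hres
    have h4 := Finset.card_insert_le (Fin.cons false s₀ : Fin (e + 1) → Bool)
      (S.image fun s => (Fin.cons true s : Fin (e + 1) → Bool))
    have h5 : (S.image fun s => (Fin.cons true s : Fin (e + 1) → Bool)).card ≤ S.card :=
      Finset.card_image_le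
    omega

theorem dm_mono : Monotone dm := monotone_nat_of_le_succ dm_mono_succ

open Classical in
/-- number of exceptional dimensions -/
theorem count_le (N : ℕ) (hN : 1 ≤ N) :
    ((Finset.Icc 1 N).filter fun d => dm d ≠ edm d).card ≤ dm N := by
  induction N, hN using Nat.le_induction with
  | base =>
    rw [Finset.filter_false_of_mem]
    · simp
    · intro d hd
      rw [Finset.mem_Icc] at hd
      have : d = 1 := by omega
      subst this
      simp [dm_eq_edm (d := 1) (by decide)]
  | succ N hN ih =>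
    rw [← Finset.insert_Icc_right_eq_Icc_add_one (by omega : 1 ≤ N + 1), Finset.filter_insert]
    by_cases h : dm (N + 1) ≠ edm (N + 1)
    · rw [if_pos h]
      have h1 := edm_le_dm (d := N + 1) (by omega)
      have h2 := dm_le_edm_succ N
      have h3 := Finset.card_insert_le (N + 1) ((Finset.Icc 1 N).filter fun d => dm d ≠ edm d)
      omega
    · rw [if_neg h]
      exact ih.trans (dm_mono_succ N)

/-! ## Detecting matrices -/

/-- zero or a sign -/
def Tri (x : ℤ) : Prop := x = 0 ∨ x = 1 ∨ x = -1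

/-- detecting matrices -/
def Det {R C : Type} [Fintype C] (T : R → C → ℤ) : Prop :=
  (∀ r c, Tri (T r c)) ∧ ∀ x : C → ℤ, (∀ c, Tri (x c)) → (∀ r, ∑ c, T r c * x c = 0) → ∀ c, x c = 0

/-- the doubling step -/
def dbl {R C : Type} [DecidableEq R] (T : R → C → ℤ) : R ⊕ R → C ⊕ (C ⊕ R) → ℤ
  | .inl r, .inl c => T r c
  | .inl r, .inr (.inl c) => T r c
  | .inl r, .inr (.inr r') => if r = r' then 1 else 0
  | .inr r, .inl c => T r c
  | .inr r, .inr (.inl c) => - T r c
  | .inr _, .inr (.inr _) => 0

lemma det_dbl {R C : Type} [Fintype R] [Fintype C] [DecidableEq R] {T : R → C → ℤ} (hT : Det T) :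
    Det (dbl T) := by
  constructor
  · rintro (r | r) (c | c | r') <;> simp only [dbl]
    · exact hT.1 r c
    · exact hT.1 r c
    · split_ifs <;> simp [Tri]
    · exact hT.1 r c
    · rcases hT.1 r c with h | h | h <;> rw [h] <;> simp [Tri]
    · simp [Tri]
  · intro x hx h
    have h1 : ∀ r, ∑ c, T r c * x (.inl c) + (∑ c, T r c * x (.inr (.inl c)) + x (.inr (.inr r))) = 0 := by
      intro r
      have := h (.inl r)
      simp only [Fintype.sum_sum_type, dbl, ite_mul, one_mul, zero_mul, Finset.sum_ite_eq,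
        Finset.mem_univ, if_true] at this
      exact this
    have h2 : ∀ r, ∑ c, T r c * x (.inl c) = ∑ c, T r c * x (.inr (.inl c)) := by
      intro r
      have := h (.inr r)
      simp only [Fintype.sum_sum_type, dbl, zero_mul, Finset.sum_const_zero, add_zero, neg_mul,
        Finset.sum_neg_distrib] at this
      linarith
    have h3 : ∀ r, x (.inr (.inr r)) = 0 := by
      intro r
      have e1 := h1 r
      have e2 := h2 r
      rcases hx (.inr (.inr r)) with h | h | h <;> omega
    have h4 : ∀ r, ∑ c, T r c * x (.inl c) = 0 := by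
      intro r
      have e1 := h1 r
      have e2 := h2 r
      have e3 := h3 r
      omega
    have h5 := hT.2 (fun c => x (.inl c)) (fun c => hx _) h4
    have h6 := hT.2 (fun c => x (.inr (.inl c))) (fun c => hx _) (fun r => by rw [← h2 r]; exact h4 r)
    rintro (c | c | r)
    · exact h5 c
    · exact h6 c
    · exact h3 r

lemma exists_det (k : ℕ) : ∃ (R C : Type) (_ : Fintype R) (_ : Fintype C) (_ : DecidableEq R)
    (T : R → C → ℤ), Fintype.card R = 2 ^ k ∧ 2 * Fintype.card C = (k + 2) * 2 ^ k ∧ Det T := by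
  induction k with
  | zero =>
    refine ⟨Unit, Unit, inferInstance, inferInstance, inferInstance, fun _ _ => 1, by simp, by simp,
      ?_, ?_⟩
    · intro r c
      simp [Tri]
    · intro x _ h c
      have := h ()
      simpa using this
  | succ k ih =>
    obtain ⟨R, C, i1, i2, i3, T, h1, h2, h3⟩ := ih
    refine ⟨R ⊕ R, C ⊕ (C ⊕ R), inferInstance, inferInstance, inferInstance, dbl T, ?_, ?_,
      det_dbl h3⟩
    · rw [Fintype.card_sum, h1]; ring
    · rw [Fintype.card_sum, Fintype.card_sum, h1]
      calc 2 * (Fintype.card C + (Fintype.card C + 2 ^ k))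
          = 2 * (2 * Fintype.card C) + 2 * 2 ^ k := by ring
        _ = (k + 1 + 2) * 2 ^ (k + 1) := by rw [h2]; ring

/-- A detecting matrix with `m` rows and `n` columns gives a resolving set of size `2 m`. -/
lemma dm_le_of_det {R C : Type} [Fintype R] [Fintype C] [DecidableEq R] {T : R → C → ℤ}
    (hT : Det T) : dm (Fintype.card C) ≤ 2 * Fintype.card R := by
  classical
  set e : C ≃ Fin (Fintype.card C) := Fintype.equivFin C with he
  set f : R × Bool → (Fin (Fintype.card C) → Bool) := fun p i =>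
    if T p.1 (e.symm i) = 0 then p.2 else decide (T p.1 (e.symm i) = 1) with hf
  have hsum : ∀ r i, sg (f (r, true) i) + sg (f (r, false) i) = 2 * T r (e.symm i) := by
    intro r i
    rcases hT.1 r (e.symm i) with h | h | h
    · simp [hf, h, sg]
    · simp [hf, h, sg]
    · simp [hf, h, sg]
  have hres : Res (Finset.univ.image f) := by
    intro u v huv
    by_contra hcon
    push Not at hcon
    simp only [dist_eq] at hcon
    apply huv
    have h1 : ∀ p : R × Bool, ∑ i, sg (u i) * sg (f p i) = ∑ i, sg (v i) * sg (f p i) := fun p =>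
      (hd_eq_iff u v _).1 (hcon _ (Finset.mem_image_of_mem _ (Finset.mem_univ p)))
    have hx : ∀ i, ∃ z : ℤ, Tri z ∧ sg (u i) - sg (v i) = 2 * z := by
      intro i
      rcases sg_cases (u i) with h | h <;> rcases sg_cases (v i) with h' | h' <;> rw [h, h']
      · exact ⟨0, Or.inl rfl, by norm_num⟩
      · exact ⟨1, Or.inr (Or.inl rfl), by norm_num⟩
      · exact ⟨-1, Or.inr (Or.inr rfl), by norm_num⟩
      · exact ⟨0, Or.inl rfl, by norm_num⟩
    choose z hz1 hz2 using hx
    have h2 : ∀ r, ∑ c, T r c * z (e c) = 0 := by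
      intro r
      have e1 := h1 (r, true)
      have e2 := h1 (r, false)
      have e3 : ∑ i, (sg (u i) - sg (v i)) * (sg (f (r, true) i) + sg (f (r, false) i)) = 0 := by
        have : ∀ i, (sg (u i) - sg (v i)) * (sg (f (r, true) i) + sg (f (r, false) i)) =
          (sg (u i) * sg (f (r, true) i) - sg (v i) * sg (f (r, true) i)) +
          (sg (u i) * sg (f (r, false) i) - sg (v i) * sg (f (r, false) i)) := fun i => by ring
        simp only [this]
        rw [Finset.sum_add_distrib, Finset.sum_sub_distrib, Finset.sum_sub_distrib]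
        linarith
      have e4 : ∑ i, (sg (u i) - sg (v i)) * (sg (f (r, true) i) + sg (f (r, false) i)) =
          4 * ∑ i, T r (e.symm i) * z i := by
        rw [Finset.mul_sum]
        refine Finset.sum_congr rfl fun i _ => ?_
        rw [hz2 i, hsum r i]
        ring
      have e5 : ∑ i, T r (e.symm i) * z i = ∑ c, T r c * z (e c) := by
        rw [← Equiv.sum_comp e]
        simp
      rw [e4, e5] at e3
      linarith
    have h3 := hT.2 (fun c => z (e c)) (fun c => hz1 _) h2
    funext i
    apply sg_inj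
    have h4 := h3 (e.symm i)
    simp only [Equiv.apply_symm_apply] at h4
    have h5 := hz2 i
    rw [h4] at h5
    linarith
  refine (dm_le hres).trans (Finset.card_image_le.trans ?_)
  rw [Finset.card_univ, Fintype.card_prod, Fintype.card_bool, mul_comm]

lemma dm_block {N k : ℕ} (h : 2 * N ≤ (k + 2) * 2 ^ k) : dm N ≤ 2 * 2 ^ k := by
  obtain ⟨R, C, i1, i2, i3, T, h1, h2, h3⟩ := exists_det k
  have h4 : N ≤ Fintype.card C := by omega
  exact (dm_mono h4).trans ((dm_le_of_det h3).trans (by rw [h1]))

/-- `dim(Q_N) ≤ 16 N / log₂ N` -/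
theorem dm_bound (N : ℕ) (hN : 2 ≤ N) : (dm N : ℝ) ≤ 16 * N / Real.logb 2 N := by
  have hex : ∃ k, 2 * N ≤ (k + 2) * 2 ^ k := by
    refine ⟨N, ?_⟩
    have h0 : 2 ^ 1 ≤ 2 ^ N := Nat.pow_le_pow_right (by norm_num) (by omega)
    calc 2 * N ≤ (N + 2) * 2 ^ 1 := by omega
      _ ≤ (N + 2) * 2 ^ N := Nat.mul_le_mul_left _ h0
  classical
  set k := Nat.find hex with hk
  have h1 : 2 * N ≤ (k + 2) * 2 ^ k := Nat.find_spec hex
  have hk1 : 1 ≤ k := by
    by_contra hc
    have : k = 0 := by omega
    rw [this] at h1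
    omega
  have h2 : (k - 1 + 2) * 2 ^ (k - 1) < 2 * N := by
    have := Nat.find_min hex (m := k - 1) (by omega)
    omega
  clear_value k
  obtain ⟨l, rfl⟩ : ∃ l, k = l + 1 := ⟨k - 1, by omega⟩
  simp only [Nat.add_sub_cancel] at h2
  have h3 : dm N ≤ 2 * 2 ^ (l + 1) := dm_block h1
  have hN0 : (0 : ℝ) < N := by
    have : 0 < N := by omega
    exact_mod_cast this
  have hlog : Real.logb 2 N ≤ 2 * (l + 2) := by
    have h4 : (N : ℝ) ≤ 2 ^ (2 * (l + 2)) := by
      have h5 : N ≤ 2 ^ (2 * (l + 2)) := by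
        have h6 : l + 1 + 2 ≤ 2 ^ (l + 2) := by
          have : l + 2 < 2 ^ (l + 2) := Nat.lt_two_pow_self
          omega
        have h7 : (l + 1 + 2) * 2 ^ (l + 1) ≤ 2 ^ (l + 2) * 2 ^ (l + 1) :=
          Nat.mul_le_mul_right _ h6
        have h8 : 2 ^ (2 * (l + 2)) = 2 * (2 ^ (l + 2) * 2 ^ (l + 1)) := by
          rw [← pow_add, ← pow_succ']
          congr 1
          ring
        have h9 : 0 < 2 ^ (l + 2) * 2 ^ (l + 1) := by positivity
        omega
      exact_mod_cast h5
    calc Real.logb 2 N ≤ Real.logb 2 (2 ^ (2 * (l + 2))) :=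
          Real.logb_le_logb_of_le (by norm_num) hN0 h4
      _ = 2 * (l + 2) := by
          rw [Real.logb_pow, Real.logb_self_eq_one (by norm_num)]
          push_cast
          ring
  have hlog0 : 0 < Real.logb 2 N := Real.logb_pos (by norm_num) (by exact_mod_cast hN)
  rw [le_div_iff₀ hlog0]
  have h10 : (dm N : ℝ) ≤ 4 * 2 ^ l := by
    have : (dm N : ℝ) ≤ ((2 * 2 ^ (l + 1) : ℕ) : ℝ) := by exact_mod_cast h3
    refine this.trans (le_of_eq ?_)
    push_cast
    ring
  have h11 : ((l : ℝ) + 2) * 2 ^ l < 2 * N := by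
    have : ((l + 2) * 2 ^ l : ℕ) < 2 * N := h2
    exact_mod_cast this
  have h12 : (0 : ℝ) ≤ dm N := Nat.cast_nonneg _
  calc (dm N : ℝ) * Real.logb 2 N ≤ (4 * 2 ^ l) * (2 * (l + 2)) := by
        apply mul_le_mul h10 hlog hlog0.le (by positivity)
    _ = 8 * (((l : ℝ) + 2) * 2 ^ l) := by ring
    _ ≤ 16 * N := by linarith

end Pool.Agent.Run7.h20.HCB
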