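import Pool.Agent.Run7.h20.HCB.Basic

/-! # Hypercubes: vertex and edge resolving sets -/

set_option autoImplicit false

open Finset

namespace Pool.Agent.Run7.h20.HCB

variable {d : ℕ}

lemma term_mod (p q r : Bool) :
    (4 : ℤ) ∣ (sg p * sg r - sg q * sg r) - 2 * (if p ≠ q then 1 else 0) := by
  cases p <;> cases q <;> cases r <;> simp [sg]

lemma aux_even {α β γ δ K : ℤ} (hα : α = 1 ∨ α = -1) (hβ : β = 1 ∨ β = -1)
    (hγ : γ = 1 ∨ γ = -1) (hδ : δ = 1 ∨ δ = -1) (hK : Even K)
    (h : (4 : ℤ) ∣ (α * γ - β * δ) - 2 * K) : γ = α * β * δ := by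
  obtain ⟨k, hk⟩ := hK
  rcases hα with rfl | rfl <;> rcases hβ with rfl | rfl <;> rcases hγ with rfl | rfl <;>
    rcases hδ with rfl | rfl <;> norm_num at h ⊢ <;> omega

lemma aux_odd {α β γ δ K : ℤ} (hα : α = 1 ∨ α = -1) (hβ : β = 1 ∨ β = -1)
    (hγ : γ = 1 ∨ γ = -1) (hδ : δ = 1 ∨ δ = -1) (hK : Odd K)
    (h : (4 : ℤ) ∣ (α * γ - β * δ) - 2 * K) : γ = -(α * β) * δ := by
  obtain ⟨k, hk⟩ := hK
  rcases hα with rfl | rfl <;> rcases hβ with rfl | rfl <;> rcases hγ with rfl | rfl <;>
    rcases hδ with rfl | rfl <;> norm_num at h ⊢ <;> omega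

lemma exists_sg {z : ℤ} (hz : z = 1 ∨ z = -1) : ∃ η : Bool, sg η = z := by
  rcases hz with rfl | rfl
  · exact ⟨true, rfl⟩
  · exact ⟨false, rfl⟩

lemma mul_cases {x y : ℤ} (hx : x = 1 ∨ x = -1) (hy : y = 1 ∨ y = -1) :
    x * y = 1 ∨ x * y = -1 := by
  rcases hx with rfl | rfl <;> rcases hy with rfl | rfl <;> norm_num

/-- the key parity argument -/
lemma key {a b : Fin d} (hab : a ≠ b) {u x : Fin d → Bool} {s : Fin d → Bool}
    (h : E a u s = E b x s) :
    (4 : ℤ) ∣ (sg (x a) * sg (s a) - sg (u b) * sg (s b)) -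
      2 * ∑ i ∈ (univ.erase a).erase b, (if u i ≠ x i then (1 : ℤ) else 0) := by
  have h1 : E a u s = sg (u b) * sg (s b) +
      ∑ i ∈ (univ.erase a).erase b, sg (u i) * sg (s i) := by
    unfold E
    exact (Finset.add_sum_erase _ (fun i => sg (u i) * sg (s i))
      (Finset.mem_erase.2 ⟨hab.symm, Finset.mem_univ b⟩)).symm
  have h2 : E b x s = sg (x a) * sg (s a) +
      ∑ i ∈ (univ.erase a).erase b, sg (x i) * sg (s i) := by
    unfold E
    rw [Finset.erase_right_comm]
    exact (Finset.add_sum_erase _ (fun i => sg (x i) * sg (s i))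
      (Finset.mem_erase.2 ⟨hab, Finset.mem_univ a⟩)).symm
  have h3 : (4 : ℤ) ∣ ∑ i ∈ (univ.erase a).erase b,
      ((sg (u i) * sg (s i) - sg (x i) * sg (s i)) - 2 * (if u i ≠ x i then (1 : ℤ) else 0)) :=
    Finset.dvd_sum fun i _ => term_mod _ _ _
  rw [Finset.sum_sub_distrib, Finset.sum_sub_distrib, ← Finset.mul_sum] at h3
  convert h3 using 1
  rw [h1, h2] at h
  linarith

/-- **Vertex resolving sets are edge resolving.** -/
theorem eres_of_res {S : Finset (Fin d → Bool)} (hS : Res S) : ERes S := by
  intro u v x y huv hxy hne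
  by_contra hcon
  push Not at hcon
  obtain ⟨a, ha1, ha2⟩ := adj_iff.1 huv
  obtain ⟨b, hb1, hb2⟩ := adj_iff.1 hxy
  have hE : ∀ s ∈ S, E a u s = E b x s := by
    intro s hs
    have h1 := hcon s hs
    simp only [dist_eq] at h1
    have e1 := two_min ha1 ha2 s
    have e2 := two_min hb1 hb2 s
    rw [h1] at e1
    linarith
  by_cases hab : a = b
  · subst hab
    have h1 : Function.update u a true = Function.update x a true := by
      apply not_res hS
      intro s hs
      rw [sum_eq a, sum_eq a, E_congr (v := u) (fun i hi => by simp [hi]),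
        E_congr (u := Function.update x a true) (v := x) (fun i hi => by simp [hi]), hE s hs]
      simp
    have h2 : ∀ i, i ≠ a → u i = x i := by
      intro i hi
      have := congrFun h1 i
      simpa [hi] using this
    apply hne
    by_cases h3 : u a = x a
    · have e1 : u = x := by
        funext i
        by_cases hi : i = a
        · rw [hi, h3]
        · exact h2 i hi
      have e2 : v = y := by
        funext i
        by_cases hi : i = a
        · rw [hi, ha1, hb1, h3]
        · rw [ha2 i hi, hb2 i hi, h2 i hi]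
      rw [e1, e2]
    · have h4 : x a = !u a := by
        cases hu : u a <;> cases hx : x a <;> simp_all
      have e1 : u = y := by
        funext i
        by_cases hi : i = a
        · rw [hi, hb1, h4, Bool.not_not]
        · rw [hb2 i hi, h2 i hi]
      have e2 : v = x := by
        funext i
        by_cases hi : i = a
        · rw [hi, ha1, h4]
        · rw [ha2 i hi, h2 i hi]
      rw [e1, e2]
      exact Sym2.eq_iff.2 (Or.inr ⟨rfl, rfl⟩)
  · -- the columns `a` and `b` are equal up to a sign
    set K : ℤ := ∑ i ∈ (univ.erase a).erase b, (if u i ≠ x i then (1 : ℤ) else 0) with hK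
    have hη : ∃ η : Bool, ∀ s ∈ S, sg (s a) = sg η * sg (s b) := by
      rcases Int.even_or_odd K with he | ho
      · obtain ⟨η, h0⟩ := exists_sg (mul_cases (sg_cases (x a)) (sg_cases (u b)))
        refine ⟨η, fun s hs => ?_⟩
        rw [h0]
        exact aux_even (sg_cases _) (sg_cases _) (sg_cases _) (sg_cases _) he (key hab (hE s hs))
      · obtain ⟨η, h0⟩ := exists_sg (z := -(sg (x a) * sg (u b))) (by
          rcases mul_cases (sg_cases (x a)) (sg_cases (u b)) with h | h <;> rw [h] <;> norm_num)
        refine ⟨η, fun s hs => ?_⟩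
        rw [h0]
        exact aux_odd (sg_cases _) (sg_cases _) (sg_cases _) (sg_cases _) ho (key hab (hE s hs))
    obtain ⟨η, hη⟩ := hη
    have h1 : (fun i => if i = a then true else if i = b then !η else true : Fin d → Bool) =
        (fun i => if i = a then false else if i = b then η else true : Fin d → Bool) := by
      apply not_res hS
      intro s hs
      rw [sum_eq a, sum_eq a (fun i => if i = a then false else if i = b then η else true)]
      unfold E
      rw [← Finset.add_sum_erase (univ.erase a) (fun i => sg (if i = a then true else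
          if i = b then !η else true) * sg (s i)) (Finset.mem_erase.2 ⟨Ne.symm hab, Finset.mem_univ b⟩),
        ← Finset.add_sum_erase (univ.erase a) (fun i => sg (if i = a then false else
          if i = b then η else true) * sg (s i)) (Finset.mem_erase.2 ⟨Ne.symm hab, Finset.mem_univ b⟩)]
      have h2 : ∑ i ∈ (univ.erase a).erase b, sg (if i = a then true else
          if i = b then !η else true) * sg (s i) =
          ∑ i ∈ (univ.erase a).erase b, sg (if i = a then false else
          if i = b then η else true) * sg (s i) := by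
        refine Finset.sum_congr rfl fun i hi => ?_
        have hi1 : i ≠ b := Finset.ne_of_mem_erase hi
        have hi2 : i ≠ a := Finset.ne_of_mem_erase (Finset.mem_of_mem_erase hi)
        simp [hi1, hi2]
      rw [h2]
      have h3 := hη s hs
      simp only [if_true, if_neg (Ne.symm hab), sg_not, sg_true, sg_false]
      have h4 : sg η * sg η = 1 := by rcases sg_cases η with h | h <;> rw [h] <;> norm_num
      rw [h3]
      ring
    have := congrFun h1 a
    simp at this

/-- unresolved vertices for an edge resolving set are antipodal -/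
lemma antipodal {S : Finset (Fin d → Bool)} (hS : ERes S) {u v : Fin d → Bool} (huv : u ≠ v)
    (h : ∀ s ∈ S, ∑ i, sg (u i) * sg (s i) = ∑ i, sg (v i) * sg (s i)) :
    ∀ i, v i = !u i := by
  intro a
  by_contra hne
  have ha : u a = v a := by
    cases hu : u a <;> cases hv : v a <;> simp_all
  have h1 := not_eres hS (u := u) (x := v) (a := a) (b := a) (by
    intro s hs
    have := h s hs
    rw [sum_eq a, sum_eq a v, ha] at this
    linarith)
  rw [Sym2.eq_iff] at h1
  rcases h1 with h1 | h1
  · exact huv h1.1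
  · have := congrFun h1.1 a
    simp [ha] at this

/-- **Odd dimensions: nonempty edge resolving sets are vertex resolving.** -/
theorem res_of_eres (hd : Odd d) {S : Finset (Fin d → Bool)} (hne : S.Nonempty) (hS : ERes S) :
    Res S := by
  intro u v huv
  by_contra hcon
  push Not at hcon
  simp only [dist_eq] at hcon
  have h1 := antipodal hS huv (fun s hs => (hd_eq_iff u v s).1 (hcon s hs))
  obtain ⟨s, hs⟩ := hne
  have h2 := two_hd u s
  have h3 := two_hd v s
  have h4 : ∑ i, sg (v i) * sg (s i) = - ∑ i, sg (u i) * sg (s i) := by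
    rw [← Finset.sum_neg_distrib]
    refine Finset.sum_congr rfl fun i _ => ?_
    rw [h1 i, sg_not]
    ring
  rw [h4] at h3
  have h5 := hcon s hs
  rw [← h5] at h3
  obtain ⟨k, hk⟩ := hd
  omega

/-- Adding one vertex makes an edge resolving set vertex resolving. -/
theorem res_insert (hd : 1 ≤ d) {S : Finset (Fin d → Bool)} {s₀ : Fin d → Bool} (hs₀ : s₀ ∈ S)
    (hS : ERes S) :
    Res (insert (Function.update s₀ ⟨0, hd⟩ (!s₀ ⟨0, hd⟩)) S) := by
  intro u v huv
  by_contra hcon
  push Not at hcon
  simp only [dist_eq] at hcon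
  have h1 := antipodal hS huv (fun s hs => (hd_eq_iff u v s).1
    (hcon s (Finset.mem_insert_of_mem hs)))
  set a : Fin d := ⟨0, hd⟩ with ha
  have h4 : ∀ s : Fin d → Bool, ∑ i, sg (v i) * sg (s i) = - ∑ i, sg (u i) * sg (s i) := by
    intro s
    rw [← Finset.sum_neg_distrib]
    refine Finset.sum_congr rfl fun i _ => ?_
    rw [h1 i, sg_not]
    ring
  have h5 := (hd_eq_iff u v s₀).1 (hcon s₀ (Finset.mem_insert_of_mem hs₀))
  have h6 := (hd_eq_iff u v _).1 (hcon _ (Finset.mem_insert_self _ S))
  rw [h4] at h5 h6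
  have h7 : ∑ i, sg (u i) * sg (s₀ i) = 0 := by linarith
  have h8 : ∑ i, sg (u i) * sg (Function.update s₀ a (!s₀ a) i) = 0 := by linarith
  rw [sum_eq a] at h7 h8
  have h9 : E a u (Function.update s₀ a (!s₀ a)) = E a u s₀ := by
    unfold E
    refine Finset.sum_congr rfl fun i hi => ?_
    rw [Function.update_of_ne (Finset.ne_of_mem_erase hi)]
  rw [h9, Function.update_self, sg_not] at h8
  have h10 : sg (u a) * sg (s₀ a) = 0 := by linarith
  rcases sg_cases (u a) with h | h <;> rcases sg_cases (s₀ a) with h' | h' <;>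
    rw [h, h'] at h10 <;> norm_num at h10

/-- Restriction of an edge resolving set to a facet. -/
theorem res_image {S : Finset (Fin (d + 1) → Bool)} (hS : ERes S) :
    Res (S.image fun s (i : Fin d) => s i.succ) := by
  intro u v huv
  by_contra hcon
  push Not at hcon
  simp only [dist_eq] at hcon
  have hE : ∀ (w : Fin d → Bool) (s : Fin (d + 1) → Bool),
      E 0 (Fin.cons true w : Fin (d + 1) → Bool) s = ∑ i, sg (w i) * sg (s i.succ) := by
    intro w s
    have h1 := sum_eq 0 (Fin.cons true w : Fin (d + 1) → Bool) s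
    rw [Fin.sum_univ_succ] at h1
    simp only [Fin.cons_zero, Fin.cons_succ] at h1
    linarith
  have h1 := not_eres hS (u := (Fin.cons true u : Fin (d + 1) → Bool))
    (x := (Fin.cons true v : Fin (d + 1) → Bool)) (a := 0) (b := 0) (by
      intro s hs
      rw [hE, hE]
      exact (hd_eq_iff u v _).1 (hcon _ (Finset.mem_image_of_mem _ hs)))
  rw [Sym2.eq_iff] at h1
  rcases h1 with h1 | h1
  · exact huv (Fin.cons_injective2 h1.1).2
  · have := congrFun h1.1 0
    simp at this

end Pool.Agent.Run7.h20.HCB
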